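import Mathlib

-- part MP_a09f05_co.Hash
section

/-!
Hashing step for the unique-colour construction.

A pair of distinct points gets a short name (a nonzero difference of two blocks of digits), and
every name of the previous level colours the points by Reed-Solomon evaluations; two distinct
points receive the same colour from at most `D` names, and these are determined by the short name
of the pair.
-/

set_option autoImplicit false

namespace Pool.Agent.MP_a09f05_co

open Finset

/-- A finite set with at most `D` elements is covered by a sequence of length `D`. -/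
lemma exists_cover {A : Type} [Nonempty A] {D : ℕ} (s : Finset A) (hs : s.card ≤ D) :
    ∃ f : Fin D → A, ∀ x ∈ s, ∃ j, f j = x := by
  classical
  refine ⟨fun j => s.toList.getD j (Classical.arbitrary A), fun x hx => ?_⟩
  have hx' : x ∈ s.toList := Finset.mem_toList.mpr hx
  obtain ⟨i, hi, hix⟩ := List.getElem_of_mem hx'
  have hlen : s.toList.length = s.card := Finset.length_toList s
  refine ⟨⟨i, by omega⟩, ?_⟩
  simp only
  rw [List.getD_eq_getElem _ _ hi]
  exact hix

/-- A nonzero vector of `D` coefficients has at most `D` roots. -/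
lemma card_roots_le {K A : Type} [Field K] [Fintype A] [DecidableEq K] {D : ℕ} (ι : A → K)
    (hι : Function.Injective ι) (δ : Fin D → K) (hδ : δ ≠ 0) :
    (univ.filter (fun x : A => ∑ i : Fin D, δ i * ι x ^ (i : ℕ) = 0)).card ≤ D := by
  classical
  by_contra hlt
  push Not at hlt
  obtain ⟨t, ht, htc⟩ := Finset.exists_subset_card_eq hlt.le
  let g : Fin D → A := fun j => (t.equivFinOfCardEq htc).symm j
  have hg : Function.Injective g := by
    intro i j hij
    have : (t.equivFinOfCardEq htc).symm i = (t.equivFinOfCardEq htc).symm j := Subtype.ext hij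
    exact (t.equivFinOfCardEq htc).symm.injective this
  apply hδ
  apply Matrix.eq_zero_of_forall_index_sum_mul_pow_eq_zero (f := ι ∘ g) (hι.comp hg)
  intro j
  have hmem : g j ∈ t := ((t.equivFinOfCardEq htc).symm j).2
  have := ht hmem
  simpa using this

/-- The hashing step. -/
lemma hash_step {U A : Type} [Fintype U] [Fintype A] [Nonempty A] (D w M : ℕ)
    (hw : 1 < w) (hM : M ≠ 0) (hU : Fintype.card U ≤ w ^ D) (hA : Fintype.card A ≤ M) :
    ∃ (A' R : Type) (_ : Fintype A') (_ : Fintype R) (_ : Nonempty A')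
      (κ : U → U → A') (F : A → U → R) (Lst : A' → Fin D → A),
      Fintype.card A' ≤ (2 * M) ^ D ∧ Fintype.card R ≤ 2 * M * w ∧
      ∀ u u' : U, u ≠ u' → ∀ x : A, F x u = F x u' → ∃ j, Lst (κ u u') j = x := by
  classical
  obtain ⟨q, hq, hMq, hq2⟩ := Nat.exists_prime_lt_and_le_two_mul M hM
  have : Fact q.Prime := ⟨hq⟩
  set t := Nat.clog q w with ht
  have hwt : w ≤ q ^ t := Nat.le_pow_clog hq.one_lt w
  have htpos : 0 < t := Nat.clog_pos hq.one_lt hw
  have hqt : q ^ t ≤ 2 * M * w := by
    have h1 : q ^ (t.pred) < w := Nat.pow_pred_clog_lt_self hq.one_lt hw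
    have h2 : q ^ t = q * q ^ (t.pred) := by
      conv_lhs => rw [← Nat.succ_pred_eq_of_pos htpos, pow_succ']
    rw [h2]
    exact Nat.mul_le_mul hq2 h1.le
  have hcardU : Fintype.card U ≤ Fintype.card (Fin t → Fin D → ZMod q) := by
    simp only [Fintype.card_pi, ZMod.card, prod_const, card_univ, Fintype.card_fin]
    calc Fintype.card U ≤ w ^ D := hU
      _ ≤ (q ^ t) ^ D := Nat.pow_le_pow_left hwt D
      _ = (q ^ D) ^ t := by rw [← pow_mul, ← pow_mul, mul_comm]
  obtain ⟨e⟩ := Function.Embedding.nonempty_of_card_le hcardU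
  have hcardA : Fintype.card A ≤ Fintype.card (ZMod q) := by
    rw [ZMod.card]; omega
  obtain ⟨ι⟩ := Function.Embedding.nonempty_of_card_le hcardA
  have hname : ∀ u u' : U, ∃ δ : Fin D → ZMod q, u ≠ u' → δ ≠ 0 ∧ ∃ j, δ = e u j - e u' j := by
    intro u u'
    by_cases h : u = u'
    · exact ⟨0, fun h' => (h' h).elim⟩
    · have hne : e u ≠ e u' := fun h' => h (e.injective h')
      obtain ⟨j, hj⟩ := Function.ne_iff.mp hne
      exact ⟨e u j - e u' j, fun _ => ⟨sub_ne_zero.mpr hj, j, rfl⟩⟩
  choose κ hκ using hname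
  have hlist : ∀ δ : Fin D → ZMod q, ∃ f : Fin D → A, δ ≠ 0 →
      ∀ x : A, ∑ i : Fin D, δ i * ι x ^ (i : ℕ) = 0 → ∃ j, f j = x := by
    intro δ
    by_cases h : δ = 0
    · exact ⟨fun _ => Classical.arbitrary A, fun h' => (h' h).elim⟩
    · obtain ⟨f, hf⟩ := exists_cover _ (card_roots_le ι ι.injective δ h)
      exact ⟨f, fun _ x hx => hf x (by simpa using hx)⟩
  choose Lst hLst using hlist
  refine ⟨Fin D → ZMod q, Fin t → ZMod q, inferInstance, inferInstance, inferInstance, κ,
    fun x u j => ∑ i : Fin D, e u j i * ι x ^ (i : ℕ), Lst, ?_, ?_, ?_⟩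
  · simp only [Fintype.card_pi, ZMod.card, prod_const, card_univ, Fintype.card_fin]
    exact Nat.pow_le_pow_left hq2 D
  · simp only [Fintype.card_pi, ZMod.card, prod_const, card_univ, Fintype.card_fin]
    exact hqt
  · intro u u' huu x hF
    obtain ⟨h0, j, hj⟩ := hκ u u' huu
    apply hLst _ h0
    have := congrFun hF j
    simp only at this
    rw [hj]
    simp only [Pi.sub_apply, sub_mul, Finset.sum_sub_distrib]
    rw [this, sub_self]

/-- `Conf G P Q`: the pair `P` may confuse the two points of the pair `Q`. -/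
def Conf {U C : Type} (G : U → U → U → C) (P Q : U × U) : Prop :=
  ∃ a' b' : U, G P.1 P.2 Q.1 = G a' b' Q.2

/-- Chains of confusions of length `r` are recorded by bounded lists. -/
lemma chain (D : ℕ) (r : ℕ) : ∃ e : ℕ, ∀ b : ℕ, 2 ≤ b → ∀ (U : Type) [Fintype U]
    (bit : U → Fin (b * D + 1) → Bool), Function.Injective bit → Fintype.card U ≤ (2 ^ b) ^ D →
    ∃ (C A I : Type) (_ : Fintype C) (_ : Fintype A) (_ : Fintype I) (_ : Nonempty A)
      (G : U → U → U → C) (κ : U → U → A) (Λ : A → I → Fin (b * D + 1)),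
      Fintype.card C ≤ b ^ e * (2 ^ b) ^ r ∧ Fintype.card A ≤ b ^ e ∧
      Fintype.card I ≤ D ^ r ∧
      ∀ P : ℕ → U × U, (∀ i, (P i).1 ≠ (P i).2) → (∀ i < r, Conf G (P i) (P (i + 1))) →
        ∃ i : I, bit (P 0).1 (Λ (κ (P r).1 (P r).2) i) ≠
          bit (P 0).2 (Λ (κ (P r).1 (P r).2) i) := by
  classical
  induction r with
  | zero =>
    refine ⟨D + 2, fun b hb U _ bit hbit hU => ?_⟩
    have hname : ∀ u u' : U, ∃ l : Fin (b * D + 1), u ≠ u' → bit u l ≠ bit u' l := by
      intro u u'
      by_cases h : u = u'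
      · exact ⟨0, fun h' => (h' h).elim⟩
      · have hne : bit u ≠ bit u' := fun h' => h (hbit h')
        obtain ⟨j, hj⟩ := Function.ne_iff.mp hne
        exact ⟨j, fun _ => hj⟩
    choose κ hκ using hname
    refine ⟨Unit, Fin (b * D + 1), Unit, inferInstance, inferInstance, inferInstance,
      inferInstance, fun _ _ _ => (), κ, fun x _ => x, ?_, ?_, ?_, ?_⟩
    · simp only [Fintype.card_unique, pow_zero, mul_one]
      exact Nat.one_le_pow _ _ (by omega)
    · simp only [Fintype.card_fin]
      have h1 : D < b ^ D := Nat.lt_pow_self (by omega)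
      have h2 : 1 ≤ b ^ D := Nat.one_le_pow _ _ (by omega)
      calc b * D + 1 ≤ b * b ^ D + b * b ^ D := by nlinarith
        _ = 2 * (b * b ^ D) := by ring
        _ ≤ b * (b * b ^ D) := Nat.mul_le_mul_right _ hb
        _ = b ^ (D + 2) := by ring
    · simp
    · intro P hP _
      exact ⟨(), hκ _ _ (hP 0)⟩
  | succ r ih =>
    obtain ⟨e, he⟩ := ih
    refine ⟨(e + 1) * D + 3 * e + 1, fun b hb U _ bit hbit hU => ?_⟩
    obtain ⟨C, A, I, _, _, _, _, G, κ, Λ, hC, hA, hI, hmain⟩ := he b hb U bit hbit hU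
    have hbe : b ^ e ≠ 0 := pow_ne_zero _ (by omega)
    have hw : 1 < 2 ^ b := Nat.one_lt_two_pow (by omega)
    obtain ⟨A', R, _, _, _, κ', F, Lst, hA', hR, hstep⟩ :=
      hash_step (U := U) (A := A) D (2 ^ b) (b ^ e) hw hbe hU hA
    have h2b : 2 * b ^ e ≤ b ^ (e + 1) := by
      rw [pow_succ']; exact Nat.mul_le_mul_right _ hb
    refine ⟨C × A × R, A', Fin D × I, inferInstance, inferInstance, inferInstance, inferInstance,
      fun a c u => (G a c u, κ a c, F (κ a c) u), κ', fun x ji => Λ (Lst x ji.1) ji.2,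
      ?_, ?_, ?_, ?_⟩
    · simp only [Fintype.card_prod]
      calc Fintype.card C * (Fintype.card A * Fintype.card R)
          ≤ (b ^ e * (2 ^ b) ^ r) * (b ^ e * (b ^ (e + 1) * 2 ^ b)) := by
            apply Nat.mul_le_mul hC
            apply Nat.mul_le_mul hA
            exact hR.trans (Nat.mul_le_mul_right _ h2b)
        _ = b ^ (3 * e + 1) * (2 ^ b) ^ (r + 1) := by ring
        _ ≤ b ^ ((e + 1) * D + 3 * e + 1) * (2 ^ b) ^ (r + 1) := by
            apply Nat.mul_le_mul_right
            exact Nat.pow_le_pow_right (by omega) (by omega)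
    · calc Fintype.card A' ≤ (2 * b ^ e) ^ D := hA'
        _ ≤ (b ^ (e + 1)) ^ D := Nat.pow_le_pow_left h2b D
        _ = b ^ ((e + 1) * D) := by rw [← pow_mul]
        _ ≤ b ^ ((e + 1) * D + 3 * e + 1) := Nat.pow_le_pow_right (by omega) (by omega)
    · simp only [Fintype.card_prod, Fintype.card_fin]
      rw [pow_succ']
      exact Nat.mul_le_mul_left _ hI
    · intro P hP hconf
      have hconf' : ∀ i < r, Conf G (P i) (P (i + 1)) := by
        intro i hi
        obtain ⟨a', b', h⟩ := hconf i (by omega)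
        exact ⟨a', b', congrArg Prod.fst h⟩
      obtain ⟨i, hi⟩ := hmain P hP hconf'
      obtain ⟨a', b', h⟩ := hconf r (by omega)
      simp only [Prod.mk.injEq] at h
      obtain ⟨-, hk, hF⟩ := h
      rw [← hk] at hF
      obtain ⟨j, hj⟩ := hstep _ _ (hP (r + 1)) _ hF
      refine ⟨(j, i), ?_⟩
      simp only [hj]
      exact hi

/-- No closed walk of confusions of length `r + 1`. -/
lemma no_cycle (D : ℕ) (r : ℕ) : ∃ e : ℕ, ∀ b : ℕ, 2 ≤ b → ∀ (U : Type) [Fintype U],
    Fintype.card U ≤ (2 ^ b) ^ D →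
    ∃ (C : Type) (_ : Fintype C) (G : U → U → U → C),
      Fintype.card C ≤ b ^ e * (2 ^ b) ^ r ∧
      ∀ P : ℕ → U × U, (∀ i, (P i).1 ≠ (P i).2) → (∀ i, Conf G (P i) (P (i + 1))) →
        P (r + 1) ≠ P 0 := by
  classical
  obtain ⟨e, he⟩ := chain D r
  refine ⟨2 * e + D ^ r, fun b hb U _ hU => ?_⟩
  have hcardU : Fintype.card U ≤ Fintype.card (Fin (b * D + 1) → Bool) := by
    simp only [Fintype.card_pi, Fintype.card_bool, prod_const, card_univ, Fintype.card_fin]
    calc Fintype.card U ≤ (2 ^ b) ^ D := hU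
      _ = 2 ^ (b * D) := by rw [← pow_mul]
      _ ≤ 2 ^ (b * D + 1) := Nat.pow_le_pow_right (by omega) (by omega)
  obtain ⟨bit⟩ := Function.Embedding.nonempty_of_card_le hcardU
  obtain ⟨C, A, I, _, _, _, _, G, κ, Λ, hC, hA, hI, hmain⟩ := he b hb U bit bit.injective hU
  refine ⟨C × A × (I → Bool), inferInstance,
    fun a c u => (G a c u, κ a c, fun i => bit u (Λ (κ a c) i)), ?_, ?_⟩
  · simp only [Fintype.card_prod, Fintype.card_pi, Fintype.card_bool, prod_const, card_univ]
    have h2 : 2 ^ Fintype.card I ≤ b ^ (D ^ r) :=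
      (Nat.pow_le_pow_right (by omega) hI).trans (Nat.pow_le_pow_left hb _)
    calc Fintype.card C * (Fintype.card A * 2 ^ Fintype.card I)
        ≤ (b ^ e * (2 ^ b) ^ r) * (b ^ e * b ^ (D ^ r)) :=
          Nat.mul_le_mul hC (Nat.mul_le_mul hA h2)
      _ = b ^ (2 * e + D ^ r) * (2 ^ b) ^ r := by ring
  · intro P hP hconf hper
    have hconf' : ∀ i < r, Conf G (P i) (P (i + 1)) := by
      intro i _
      obtain ⟨a', b', h⟩ := hconf i
      exact ⟨a', b', congrArg Prod.fst h⟩
    obtain ⟨i, hi⟩ := hmain P hP hconf'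
    obtain ⟨a', b', h⟩ := hconf r
    simp only [Prod.mk.injEq] at h
    obtain ⟨-, hk, hF⟩ := h
    rw [← hk, hper] at hF
    exact hi (congrFun hF i)

end Pool.Agent.MP_a09f05_co

end

-- part MP_a09f05_co.Unique
section

/-!
From the absence of closed walks of confusions to colourings of `k`-sets in which every small set
contains a pair all of whose `k`-supersets are uniquely coloured, and the resulting count.
-/

set_option autoImplicit false

namespace Pool.Agent.MP_a09f05_co

open Finset

/-- A self-map of a nonempty finite type with at most `m` elements has a point of period `m !`. -/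
lemma exists_periodic {T : Type} [Fintype T] [Nonempty T] (f : T → T) (m : ℕ)
    (hm : Fintype.card T ≤ m) : ∃ x, f^[m.factorial] x = x := by
  classical
  obtain ⟨x⟩ := (inferInstance : Nonempty T)
  obtain ⟨i, j, hne, heq⟩ : ∃ i j : ℕ, i ≠ j ∧ f^[i] x = f^[j] x :=
    Finite.exists_ne_map_eq_of_infinite (fun i : ℕ => f^[i] x)
  wlog hij : i < j generalizing i j
  · exact this j i hne.symm heq.symm (by omega)
  have hper : Function.IsPeriodicPt f (j - i) (f^[i] x) := by
    unfold Function.IsPeriodicPt Function.IsFixedPt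
    rw [← Function.iterate_add_apply, Nat.sub_add_cancel hij.le, heq]
  have hmem : f^[i] x ∈ Function.periodicPts f := ⟨j - i, by omega, hper⟩
  have h1 := Function.isPeriodicPt_factorial_card_of_mem_periodicPts hmem
  exact ⟨f^[i] x, h1.trans_dvd (Nat.factorial_dvd_factorial hm)⟩

/-- The colour of a `k`-set: all values of `G` on triples of its points, in increasing order. -/
noncomputable def col {n : ℕ} {C : Type} (k : ℕ) (G : Fin n → Fin n → Fin n → C)
    (e : Finset (Fin n)) : Option (Fin k → Fin k → Fin k → C) :=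
  if h : e.card = k then
    some (fun i j l => G (e.orderEmbOfFin h i) (e.orderEmbOfFin h j) (e.orderEmbOfFin h l))
  else none

lemma exists_conf {n k : ℕ} {C : Type} (G : Fin n → Fin n → Fin n → C) {e e' : Finset (Fin n)}
    (he : e.card = k) (he' : e'.card = k) (hne : e ≠ e') (hc : col k G e = col k G e')
    {a b : Fin n} (ha : a ∈ e) (hb : b ∈ e) :
    ∃ u ∈ e, ∃ u' ∈ e', u ≠ u' ∧ Conf G (a, b) (u, u') := by
  have hfun : ∃ l : Fin k, e.orderEmbOfFin he l ≠ e'.orderEmbOfFin he' l := by
    by_contra hall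
    push Not at hall
    apply hne
    have h1 := Finset.range_orderEmbOfFin e he
    have h2 := Finset.range_orderEmbOfFin e' he'
    have h3 : (e.orderEmbOfFin he : Fin k → Fin n) = e'.orderEmbOfFin he' := funext hall
    rw [h3, h2] at h1
    exact_mod_cast h1.symm
  obtain ⟨l, hl⟩ := hfun
  have ha' : a ∈ Set.range (e.orderEmbOfFin he) := by
    rw [Finset.range_orderEmbOfFin]; exact_mod_cast ha
  have hb' : b ∈ Set.range (e.orderEmbOfFin he) := by
    rw [Finset.range_orderEmbOfFin]; exact_mod_cast hb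
  obtain ⟨i, rfl⟩ := ha'
  obtain ⟨j, rfl⟩ := hb'
  refine ⟨_, Finset.orderEmbOfFin_mem e he l, _, Finset.orderEmbOfFin_mem e' he' l, hl, ?_⟩
  unfold col at hc
  rw [dif_pos he, dif_pos he'] at hc
  have := congrFun (congrFun (congrFun (Option.some.inj hc) i) j) l
  exact ⟨_, _, this⟩

/-- Every set with between 2 and `p` points has a pair all of whose `k`-supersets in the set are
uniquely coloured. -/
lemma exists_unique_pair {n k p : ℕ} {C : Type} (G : Fin n → Fin n → Fin n → C)
    (hG : ∀ P : ℕ → Fin n × Fin n, (∀ i, (P i).1 ≠ (P i).2) → (∀ i, Conf G (P i) (P (i + 1))) →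
      P (p * p).factorial ≠ P 0)
    (V : Finset (Fin n)) (h2 : 2 ≤ V.card) (hp : V.card ≤ p) :
    ∃ a ∈ V, ∃ b ∈ V, a ≠ b ∧ ∀ e ⊆ V, ∀ e' ⊆ V, e.card = k → e'.card = k → a ∈ e → b ∈ e →
      col k G e = col k G e' → e = e' := by
  classical
  by_contra hcon
  push Not at hcon
  let T := {P : Fin n × Fin n // P ∈ V.offDiag}
  have hT : Fintype.card T ≤ p * p := by
    have : Fintype.card T = V.offDiag.card := Fintype.card_coe _
    rw [this, Finset.offDiag_card]
    calc V.card * V.card - V.card ≤ V.card * V.card := Nat.sub_le _ _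
      _ ≤ p * p := Nat.mul_le_mul hp hp
  have hne : Nonempty T := by
    obtain ⟨a, ha, b, hb, hab⟩ := Finset.one_lt_card.mp (show 1 < V.card by omega)
    exact ⟨⟨(a, b), Finset.mem_offDiag.mpr ⟨ha, hb, hab⟩⟩⟩
  have hstep : ∀ P : T, ∃ Q : T, Conf G P.1 Q.1 := by
    rintro ⟨⟨a, b⟩, hP⟩
    obtain ⟨ha, hb, hab⟩ := Finset.mem_offDiag.mp hP
    obtain ⟨e, heV, e', heV', he, he', hae, hbe, hc, hee⟩ := hcon a ha b hb hab
    obtain ⟨u, hu, u', hu', huu, hconf⟩ := exists_conf G he he' hee hc hae hbe
    exact ⟨⟨(u, u'), Finset.mem_offDiag.mpr ⟨heV hu, heV' hu', huu⟩⟩, hconf⟩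
  choose f hf using hstep
  obtain ⟨x, hx⟩ := exists_periodic f (p * p) hT
  apply hG (fun i => (f^[i] x).1)
  · intro i
    exact (Finset.mem_offDiag.mp (f^[i] x).2).2.2
  · intro i
    simp only [Function.iterate_succ_apply']
    exact hf _
  · simp only [hx, Function.iterate_zero, id]

/-- The counting step. -/
lemma count_colours {U X : Type} [DecidableEq U] [DecidableEq X] {k p : ℕ} (hk : 2 ≤ k)
    (c : Finset U → X)
    (hc : ∀ V : Finset U, 2 ≤ V.card → V.card ≤ p →
      ∃ a ∈ V, ∃ b ∈ V, a ≠ b ∧ ∀ e ⊆ V, ∀ e' ⊆ V, e.card = k → e'.card = k → a ∈ e → b ∈ e →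
        c e = c e' → e = e')
    (m : ℕ) : ∀ V : Finset U, V.card = m + 1 → V.card ≤ p →
      m.choose (k - 1) ≤ ((V.powersetCard k).image c).card := by
  induction m with
  | zero =>
    intro V _ _
    rw [Nat.choose_eq_zero_of_lt (by omega)]
    exact Nat.zero_le _
  | succ m ih =>
    intro V hV hVp
    obtain ⟨a, ha, b, hb, hab, huniq⟩ := hc V (by omega) hVp
    obtain ⟨k, rfl⟩ : ∃ k', k = k' + 2 := ⟨k - 2, by omega⟩
    have hV' : (V.erase b).card = m + 1 := by rw [Finset.card_erase_of_mem hb]; omega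
    have ih' := ih (V.erase b) hV' (by omega)
    have ha' : a ∈ V.erase b := Finset.mem_erase.mpr ⟨hab, ha⟩
    set W := (V.erase b).erase a with hW
    have hWc : W.card = m := by rw [hW, Finset.card_erase_of_mem ha']; omega
    have haW : a ∉ W := Finset.notMem_erase a _
    have hbW : b ∉ W := fun h => Finset.notMem_erase b V (Finset.mem_of_mem_erase h)
    have hWV : W ⊆ V := (Finset.erase_subset _ _).trans (Finset.erase_subset _ _)
    have hins : ∀ s ∈ W.powersetCard k, insert a (insert b s) ⊆ V ∧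
        (insert a (insert b s)).card = k + 2 := by
      intro s hs
      obtain ⟨hsW, hsc⟩ := Finset.mem_powersetCard.mp hs
      have hbs : b ∉ s := fun h => hbW (hsW h)
      have has : a ∉ insert b s := by
        rw [Finset.mem_insert]; push Not; exact ⟨hab, fun h => haW (hsW h)⟩
      refine ⟨?_, ?_⟩
      · intro x hx
        simp only [Finset.mem_insert] at hx
        rcases hx with rfl | rfl | hx
        · exact ha
        · exact hb
        · exact hWV (hsW hx)
      · rw [Finset.card_insert_of_notMem has, Finset.card_insert_of_notMem hbs, hsc]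
    set S := (W.powersetCard k).image (fun s => c (insert a (insert b s))) with hS
    have hScard : S.card = m.choose k := by
      rw [hS, Finset.card_image_of_injOn, Finset.card_powersetCard, hWc]
      intro s hs s' hs' hss
      have hs1 := hins s hs
      have hs2 := hins s' hs'
      have heq := huniq _ hs1.1 _ hs2.1 hs1.2 hs2.2 (by simp) (by simp) hss
      obtain ⟨hsW, -⟩ := Finset.mem_powersetCard.mp hs
      obtain ⟨hsW', -⟩ := Finset.mem_powersetCard.mp hs'
      ext x
      constructor
      · intro hx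
        have : x ∈ insert a (insert b s') := by rw [← heq]; simp [hx]
        simp only [Finset.mem_insert] at this
        rcases this with rfl | rfl | h
        · exact (haW (hsW hx)).elim
        · exact (hbW (hsW hx)).elim
        · exact h
      · intro hx
        have : x ∈ insert a (insert b s) := by rw [heq]; simp [hx]
        simp only [Finset.mem_insert] at this
        rcases this with rfl | rfl | h
        · exact (haW (hsW' hx)).elim
        · exact (hbW (hsW' hx)).elim
        · exact h
    have hdisj : Disjoint (((V.erase b).powersetCard (k + 2)).image c) S := by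
      rw [Finset.disjoint_left]
      intro x hx hxS
      obtain ⟨e', he', rfl⟩ := Finset.mem_image.mp hx
      obtain ⟨s, hs, hcs⟩ := Finset.mem_image.mp hxS
      obtain ⟨he'V, he'c⟩ := Finset.mem_powersetCard.mp he'
      have hs1 := hins s hs
      have heq := huniq _ hs1.1 e' (he'V.trans (Finset.erase_subset _ _)) hs1.2 he'c
        (by simp) (by simp) hcs
      have : b ∈ e' := by rw [← heq]; simp
      exact Finset.notMem_erase b V (he'V this)
    have hsub : (((V.erase b).powersetCard (k + 2)).image c) ∪ S ⊆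
        (V.powersetCard (k + 2)).image c := by
      intro x hx
      rcases Finset.mem_union.mp hx with hx | hx
      · obtain ⟨e', he', rfl⟩ := Finset.mem_image.mp hx
        obtain ⟨he'V, he'c⟩ := Finset.mem_powersetCard.mp he'
        exact Finset.mem_image_of_mem _
          (Finset.mem_powersetCard.mpr ⟨he'V.trans (Finset.erase_subset _ _), he'c⟩)
      · obtain ⟨s, hs, rfl⟩ := Finset.mem_image.mp hx
        exact Finset.mem_image_of_mem _ (Finset.mem_powersetCard.mpr (hins s hs))
    have hle := Finset.card_le_card hsub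
    rw [Finset.card_union_of_disjoint hdisj, hScard] at hle
    have hpas : (m + 1).choose (k + 2 - 1) = m.choose k + m.choose (k + 2 - 1) := by
      have : k + 2 - 1 = k + 1 := by omega
      rw [this, Nat.choose_succ_succ]
    omega

end Pool.Agent.MP_a09f05_co

end

-- part MP_a09f05_co.Main
section

/-!
The colouring with `n ^ ε` colours.
-/

set_option autoImplicit false

namespace Pool.Agent.MP_a09f05_co

open Finset Filter

lemma eventually_pow_le_two_pow (e : ℕ) : ∃ b₀ : ℕ, ∀ b : ℕ, b₀ ≤ b → b ^ e ≤ 2 ^ b := by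
  have h := tendsto_pow_const_div_const_pow_of_one_lt e (show (1 : ℝ) < 2 by norm_num)
  have h2 := h.eventually (gt_mem_nhds (show (0 : ℝ) < 1 by norm_num))
  obtain ⟨b₀, hb₀⟩ := Filter.eventually_atTop.mp h2
  refine ⟨b₀, fun b hb => ?_⟩
  have h3 := hb₀ b hb
  rw [div_lt_one (by positivity)] at h3
  exact_mod_cast h3.le

/-- For all large `n` there is a colouring of the `k`-subsets of an `n`-set with at most `n ^ ε`
colours in which every set of between 2 and `p` points has a pair of points all of whose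
`k`-supersets inside the set carry a colour that appears only once inside the set. -/
theorem unique_pair_colouring (k p : ℕ) (ε : ℝ) (hε : 0 < ε) :
    ∃ N : ℕ, ∀ n : ℕ, N ≤ n →
      ∃ c : Finset (Fin n) → ℕ,
        ((((Finset.univ : Finset (Fin n)).powersetCard k).image c).card : ℝ) ≤ (n : ℝ) ^ ε ∧
        ∀ V : Finset (Fin n), 2 ≤ V.card → V.card ≤ p →
          ∃ a ∈ V, ∃ b ∈ V, a ≠ b ∧ ∀ e ⊆ V, ∀ e' ⊆ V, e.card = k → e'.card = k →
            a ∈ e → b ∈ e → c e = c e' → e = e' := by
  classical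
  obtain ⟨r, hr⟩ : ∃ r, (p * p).factorial = r + 1 :=
    ⟨(p * p).factorial - 1, by have := Nat.factorial_pos (p * p); omega⟩
  set s : ℕ := 2 * ((r + 1) * k ^ 3) with hs
  obtain ⟨D, hD⟩ := exists_nat_gt ((s : ℝ) / ε)
  have hDpos : 0 < D := by
    have : (0 : ℝ) ≤ (s : ℝ) / ε := by positivity
    exact_mod_cast this.trans_lt hD
  have hsD : (s : ℝ) ≤ D * ε := by
    rw [div_lt_iff₀ hε] at hD; exact hD.le
  obtain ⟨e, he⟩ := no_cycle D r
  obtain ⟨b₀, hb₀⟩ := eventually_pow_le_two_pow e
  refine ⟨2 ^ ((b₀ + 1) * D), fun n hn => ?_⟩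
  have hn0 : n ≠ 0 := by
    have : 0 < 2 ^ ((b₀ + 1) * D) := by positivity
    omega
  set l := Nat.log 2 n with hl
  have hl1 : (b₀ + 1) * D ≤ l := Nat.le_log_of_pow_le (by norm_num) hn
  set d := l / D with hd
  have hd1 : b₀ + 1 ≤ d := (Nat.le_div_iff_mul_le hDpos).mpr hl1
  have hdD : d * D ≤ l := Nat.div_mul_le_self l D
  have hlt : l < (d + 1) * D := by
    have := Nat.lt_div_mul_add (a := l) hDpos
    rw [← hd] at this
    nlinarith
  have hcard : Fintype.card (Fin n) ≤ (2 ^ (d + 1)) ^ D := by
    rw [Fintype.card_fin, ← pow_mul]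
    calc n ≤ 2 ^ (l + 1) := (Nat.lt_pow_succ_log_self (by norm_num) n).le
      _ ≤ 2 ^ ((d + 1) * D) := Nat.pow_le_pow_right (by norm_num) (by omega)
  obtain ⟨C, _, G, hC, hG⟩ := he (d + 1) (by omega) (Fin n) hcard
  let enc : Option (Fin k → Fin k → Fin k → C) → ℕ := fun x =>
    (Fintype.equivFin (Option (Fin k → Fin k → Fin k → C)) x : ℕ)
  have henc : Function.Injective enc := fun x y h =>
    (Fintype.equivFin _).injective (Fin.ext h)
  refine ⟨fun e => enc (col k G e), ?_, ?_⟩
  · have h1 : (((Finset.univ : Finset (Fin n)).powersetCard k).image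
        (fun e => enc (col k G e))).card ≤ Fintype.card (Fin k → Fin k → Fin k → C) := by
      have hsub : ((Finset.univ : Finset (Fin n)).powersetCard k).image
          (fun e => enc (col k G e)) ⊆
          (Finset.univ : Finset (Fin k → Fin k → Fin k → C)).image (fun x => enc (some x)) := by
        intro x hx
        obtain ⟨e, he, rfl⟩ := Finset.mem_image.mp hx
        have hek : e.card = k := (Finset.mem_powersetCard.mp he).2
        unfold col
        rw [dif_pos hek]
        exact Finset.mem_image.mpr ⟨_, Finset.mem_univ _, rfl⟩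
      exact (Finset.card_le_card hsub).trans Finset.card_image_le
    have h2 : Fintype.card (Fin k → Fin k → Fin k → C) = Fintype.card C ^ (k ^ 3) := by
      simp only [Fintype.card_pi, prod_const, card_univ, Fintype.card_fin]
      rw [← pow_mul, ← pow_mul]; congr 1; ring
    have h3 : Fintype.card C ≤ 2 ^ ((d + 1) * (r + 1)) := by
      calc Fintype.card C ≤ (d + 1) ^ e * (2 ^ (d + 1)) ^ r := hC
        _ ≤ 2 ^ (d + 1) * (2 ^ (d + 1)) ^ r :=
            Nat.mul_le_mul_right _ (hb₀ (d + 1) (by omega))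
        _ = 2 ^ ((d + 1) * (r + 1)) := by ring
    have h4 : Fintype.card C ^ (k ^ 3) ≤ 2 ^ (d * s) := by
      calc Fintype.card C ^ (k ^ 3) ≤ (2 ^ ((d + 1) * (r + 1))) ^ (k ^ 3) :=
            Nat.pow_le_pow_left h3 _
        _ = 2 ^ ((d + 1) * ((r + 1) * k ^ 3)) := by rw [← pow_mul]; congr 1; ring
        _ ≤ 2 ^ (d * s) := by
            apply Nat.pow_le_pow_right (by norm_num)
            rw [hs]
            have : d + 1 ≤ d * 2 := by omega
            calc (d + 1) * ((r + 1) * k ^ 3) ≤ (d * 2) * ((r + 1) * k ^ 3) :=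
                  Nat.mul_le_mul_right _ this
              _ = d * (2 * ((r + 1) * k ^ 3)) := by ring
    have h5 : ((2 ^ (d * s) : ℕ) : ℝ) ≤ (n : ℝ) ^ ε := by
      have hn2 : ((2 : ℝ) ^ (d * D)) ≤ n := by
        have : 2 ^ (d * D) ≤ n :=
          (Nat.pow_le_pow_right (by norm_num) hdD).trans (Nat.pow_log_le_self 2 hn0)
        exact_mod_cast this
      calc ((2 ^ (d * s) : ℕ) : ℝ) = (2 : ℝ) ^ ((d * s : ℕ) : ℝ) := by
            rw [Real.rpow_natCast]; push_cast; rfl
        _ ≤ (2 : ℝ) ^ (((d * D : ℕ) : ℝ) * ε) := by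
            apply Real.rpow_le_rpow_of_exponent_le (by norm_num)
            push_cast
            rw [mul_assoc]
            exact mul_le_mul_of_nonneg_left hsD (by positivity)
        _ = ((2 : ℝ) ^ (d * D)) ^ ε := by
            rw [Real.rpow_mul (by norm_num), Real.rpow_natCast]
        _ ≤ (n : ℝ) ^ ε := Real.rpow_le_rpow (by positivity) hn2 hε.le
    refine le_trans ?_ h5
    exact_mod_cast h1.trans (h2.le.trans h4)
  · intro V h2 hp
    have hG' : ∀ P : ℕ → Fin n × Fin n, (∀ i, (P i).1 ≠ (P i).2) →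
        (∀ i, Conf G (P i) (P (i + 1))) → P (p * p).factorial ≠ P 0 := by
      rw [hr]; exact hG
    obtain ⟨a, ha, b, hb, hab, h⟩ := exists_unique_pair (k := k) G hG' V h2 hp
    exact ⟨a, ha, b, hb, hab, fun e he e' he' hc hc' hae hbe hcc =>
      h e he e' he' hc hc' hae hbe (henc hcc)⟩

end Pool.Agent.MP_a09f05_co

end
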